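import Mathlib

set_option autoImplicit false

namespace Pool.Agent.Results.MP_6ba634_co.LocatingEq

open SimpleGraph

/-- The distance `d(v, S) = min_{s ∈ S} d(v, s)` from a vertex to a (nonempty) set of vertices. -/
noncomputable def distToSet {V : Type*} (G : SimpleGraph V) (v : V) (S : Set V) : ℕ :=
  sInf {d : ℕ | ∃ s ∈ S, G.dist v s = d}

/-- `c` is a locating colouring of `G` with `k` (nonempty) colour classes. -/
def IsLocating {V : Type*} (G : SimpleGraph V) {k : ℕ} (c : V → Fin k) : Prop :=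
  (∀ u v, G.Adj u v → c u ≠ c v) ∧ Function.Surjective c ∧
    ∀ u v, (∀ i : Fin k, distToSet G u {w | c w = i} = distToSet G v {w | c w = i}) → u = v

/-- The locating chromatic number: the least `k` admitting a locating `k`-colouring. -/
noncomputable def locatingChromaticNumber {V : Type*} (G : SimpleGraph V) : ℕ :=
  sInf {k : ℕ | ∃ c : V → Fin k, IsLocating G c}

section basics

variable {V : Type*} {G : SimpleGraph V}

lemma distToSet_le {v s : V} {S : Set V} (hs : s ∈ S) : distToSet G v S ≤ G.dist v s :=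
  Nat.sInf_le ⟨s, hs, rfl⟩

lemma le_distToSet {v : V} {S : Set V} {d : ℕ} (hne : S.Nonempty)
    (h : ∀ s ∈ S, d ≤ G.dist v s) : d ≤ distToSet G v S := by
  apply le_csInf
  · obtain ⟨s, hs⟩ := hne
    exact ⟨_, s, hs, rfl⟩
  · rintro b ⟨s, hs, rfl⟩
    exact h s hs

lemma distToSet_self {v : V} {S : Set V} (hv : v ∈ S) : distToSet G v S = 0 := by
  have := distToSet_le (G := G) (v := v) hv
  simpa using this

lemma distToSet_pos (hG : G.Connected) {v : V} {S : Set V} (hne : S.Nonempty) (hv : v ∉ S) :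
    0 < distToSet G v S := by
  apply le_distToSet hne
  intro s hs
  apply hG.pos_dist_of_ne
  rintro rfl
  exact hv hs

lemma distToSet_singleton {v s : V} : distToSet G v {s} = G.dist v s := by
  apply le_antisymm
  · exact distToSet_le rfl
  · apply le_distToSet (Set.singleton_nonempty s)
    intro t ht
    rw [Set.mem_singleton_iff.mp ht]

end basics

section prod

variable {m n : ℕ} {H : SimpleGraph (Fin n)}

lemma dist_prod (hH : H.Connected) (x y : Fin m × Fin n) :
    ((⊤ : SimpleGraph (Fin m)) □ H).dist x y = (if x.1 = y.1 then 0 else 1) + H.dist x.2 y.2 := by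
  have hne : Nonempty (Fin m) := ⟨x.1⟩
  have hc : ((⊤ : SimpleGraph (Fin m)) □ H).Connected := (connected_top).boxProd hH
  have h1 : (((⊤ : SimpleGraph (Fin m)) □ H).dist x y : ℕ∞) =
      ((if x.1 = y.1 then 0 else 1) + H.dist x.2 y.2 : ℕ) := by
    rw [(hc x y).coe_dist_eq_edist, edist_boxProd, edist_top]
    push_cast
    rw [(hH x.2 y.2).coe_dist_eq_edist]
  exact_mod_cast h1

lemma conn_prod (hm : 0 < m) (hH : H.Connected) : ((⊤ : SimpleGraph (Fin m)) □ H).Connected := by
  have hne : Nonempty (Fin m) := ⟨⟨0, hm⟩⟩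
  exact (connected_top).boxProd hH

end prod

section Lower

variable {m n k : ℕ} {H : SimpleGraph (Fin n)} {c : Fin m × Fin n → Fin k}

lemma inj_copy (hc : IsLocating ((⊤ : SimpleGraph (Fin m)) □ H) c) {v w : Fin m} {i : Fin n}
    (h : c (v, i) = c (w, i)) : v = w := by
  by_contra hne
  refine hc.1 (v, i) (w, i) ?_ h
  rw [boxProd_adj]
  exact Or.inl ⟨hne, rfl⟩

lemma ne_adj (hc : IsLocating ((⊤ : SimpleGraph (Fin m)) □ H) c) {v : Fin m} {i j : Fin n}
    (h : H.Adj i j) : c (v, i) ≠ c (v, j) := by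
  apply hc.1 (v, i) (v, j)
  rw [boxProd_adj]
  exact Or.inr ⟨h, rfl⟩

lemma d_le_one (hH : H.Connected) {v w : Fin m} {i : Fin n} {γ : Fin k} (h : c (w, i) = γ) :
    distToSet ((⊤ : SimpleGraph (Fin m)) □ H) (v, i) {x | c x = γ} ≤ 1 := by
  refine (distToSet_le (s := (w, i)) h).trans ?_
  rw [dist_prod hH]
  simp only [dist_self, add_zero]
  split_ifs <;> simp

lemma d_eq_one (hH : H.Connected) {v w : Fin m} {i : Fin n} {γ : Fin k} (h : c (w, i) = γ)
    (h' : c (v, i) ≠ γ) :
    distToSet ((⊤ : SimpleGraph (Fin m)) □ H) (v, i) {x | c x = γ} = 1 := by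
  apply le_antisymm (d_le_one hH h)
  apply distToSet_pos (conn_prod (lt_of_le_of_lt (Nat.zero_le _) v.2) hH) ⟨_, h⟩ h'

lemma d_le_two (hH : H.Connected) {v w : Fin m} {i j : Fin n} {γ : Fin k} (hij : H.Adj i j)
    (h : c (w, j) = γ) :
    distToSet ((⊤ : SimpleGraph (Fin m)) □ H) (v, i) {x | c x = γ} ≤ 2 := by
  refine (distToSet_le (s := (w, j)) h).trans ?_
  rw [dist_prod hH]
  have : H.dist i j = 1 := dist_eq_one_iff_adj.mpr hij
  simp only [this]
  split_ifs <;> simp

lemma d_le_two' (hH : H.Connected) {v : Fin m} {i j l : Fin n} {γ : Fin k} (hij : H.Adj i j)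
    (hjl : H.Adj j l) (h : c (v, l) = γ) :
    distToSet ((⊤ : SimpleGraph (Fin m)) □ H) (v, i) {x | c x = γ} ≤ 2 := by
  refine (distToSet_le (s := (v, l)) h).trans ?_
  rw [dist_prod hH]
  have h1 : H.dist i j = 1 := dist_eq_one_iff_adj.mpr hij
  have h2 : H.dist j l = 1 := dist_eq_one_iff_adj.mpr hjl
  have h3 : H.dist i l ≤ H.dist i j + H.dist j l := hH.dist_triangle
  simp only [if_true]
  omega

lemma d_ge_two (hH : H.Connected) {v : Fin m} {i : Fin n} {γ : Fin k} (hne : ∃ x, c x = γ)
    (hmiss : ∀ w, c (w, i) ≠ γ) (hadj : ∀ j, H.Adj i j → c (v, j) ≠ γ) :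
    2 ≤ distToSet ((⊤ : SimpleGraph (Fin m)) □ H) (v, i) {x | c x = γ} := by
  apply le_distToSet hne
  rintro ⟨w, j⟩ hs
  rw [dist_prod hH]
  simp only
  have hs' : c (w, j) = γ := hs
  have hij : i ≠ j := by
    rintro rfl
    exact hmiss w hs'
  have hpos : 0 < H.dist i j := hH.pos_dist_of_ne hij
  by_cases h1 : H.dist i j = 1
  · have hadj' := dist_eq_one_iff_adj.mp h1
    have hvw : v ≠ w := by
      rintro rfl
      exact hadj j hadj' hs'
    rw [if_neg hvw]
    omega
  · omega

/-- Every colouring with at most `m` colours fails as soon as there are two copies. -/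
lemma lower_one (hm : 0 < m) (hn : 2 ≤ n) (hH : H.Connected)
    (hc : IsLocating ((⊤ : SimpleGraph (Fin m)) □ H) c) : m + 1 ≤ k := by
  by_contra hlt
  have hk : k ≤ m := by omega
  have hinj : ∀ i : Fin n, Function.Injective (fun v : Fin m => c (v, i)) := by
    intro i v w h
    exact inj_copy hc h
  have hmk : m = k := by
    have := Fintype.card_le_of_injective _ (hinj ⟨0, by omega⟩)
    simp only [Fintype.card_fin] at this
    omega
  have hsurj : ∀ i : Fin n, Function.Surjective (fun v : Fin m => c (v, i)) := by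
    intro i
    exact ((Fintype.bijective_iff_injective_and_card _).mpr ⟨hinj i, by simp [hmk]⟩).2
  let i : Fin n := ⟨0, by omega⟩
  let j : Fin n := ⟨1, by omega⟩
  let v : Fin m := ⟨0, hm⟩
  obtain ⟨w, hw⟩ := hsurj j (c (v, i))
  have hw : c (w, j) = c (v, i) := hw
  have := hc.2.2 (v, i) (w, j) ?_
  · have h2 := congrArg (fun x => (Prod.snd x).val) this
    simp [i, j] at h2
  · intro γ
    by_cases hγ : c (v, i) = γ
    · rw [distToSet_self (show (v, i) ∈ {x | c x = γ} from hγ),
        distToSet_self (show (w, j) ∈ {x | c x = γ} from hw.trans hγ)]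
    · obtain ⟨a, ha⟩ := hsurj i γ
      obtain ⟨b, hb⟩ := hsurj j γ
      rw [d_eq_one hH ha hγ, d_eq_one hH hb (by rw [hw]; exact hγ)]

end Lower

section Lower2

variable {m n : ℕ} {H : SimpleGraph (Fin n)} {c : Fin m × Fin n → Fin (m + 1)}

/-- With `m + 1` colours each copy misses exactly one colour. -/
lemma exists_missing (hc : IsLocating ((⊤ : SimpleGraph (Fin m)) □ H) c) (i : Fin n) :
    ∃ α : Fin (m + 1), (∀ v, c (v, i) ≠ α) ∧ ∀ γ, γ ≠ α → ∃ v, c (v, i) = γ := by
  classical
  have hinj : Function.Injective (fun v : Fin m => c (v, i)) := by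
    intro v w h
    exact inj_copy hc h
  have hcard : (Finset.univ.image (fun v : Fin m => c (v, i))).card = m := by
    rw [Finset.card_image_of_injective _ hinj]
    simp
  have hcompl : ((Finset.univ.image (fun v : Fin m => c (v, i)))ᶜ).card = 1 := by
    rw [Finset.card_compl, hcard]
    simp
  obtain ⟨α, hα⟩ := Finset.card_eq_one.mp hcompl
  refine ⟨α, ?_, ?_⟩
  · intro v hv
    have : α ∈ (Finset.univ.image (fun v : Fin m => c (v, i)))ᶜ := by
      rw [hα]; simp
    rw [Finset.mem_compl] at this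
    apply this
    exact Finset.mem_image.mpr ⟨v, Finset.mem_univ _, hv⟩
  · intro γ hγ
    by_contra hno
    have : γ ∈ (Finset.univ.image (fun v : Fin m => c (v, i)))ᶜ := by
      rw [Finset.mem_compl, Finset.mem_image]
      rintro ⟨v, -, hv⟩
      exact hno ⟨v, hv⟩
    rw [hα, Finset.mem_singleton] at this
    exact hγ this

/-- Two vertices of the same colour in copies missing the same colour `α` and at the same distance
from `α` coincide. -/
lemma same_code (hH : H.Connected) (hc : IsLocating ((⊤ : SimpleGraph (Fin m)) □ H) c)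
    {v w : Fin m} {i j : Fin n} {α : Fin (m + 1)}
    (hi : ∀ γ, γ ≠ α → ∃ v, c (v, i) = γ) (hj : ∀ γ, γ ≠ α → ∃ v, c (v, j) = γ)
    (hcol : c (v, i) = c (w, j))
    (hd : distToSet ((⊤ : SimpleGraph (Fin m)) □ H) (v, i) {x | c x = α} =
      distToSet ((⊤ : SimpleGraph (Fin m)) □ H) (w, j) {x | c x = α}) : i = j := by
  have := hc.2.2 (v, i) (w, j) ?_
  · exact congrArg Prod.snd this
  · intro γ
    by_cases hγα : γ = α
    · rw [hγα]; exact hd
    by_cases hγ : c (v, i) = γ
    · rw [distToSet_self (show (v, i) ∈ {x | c x = γ} from hγ),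
        distToSet_self (show (w, j) ∈ {x | c x = γ} from hcol.symm.trans hγ)]
    · obtain ⟨a, ha⟩ := hi γ hγα
      obtain ⟨b, hb⟩ := hj γ hγα
      rw [d_eq_one hH ha hγ, d_eq_one hH hb (by rw [← hcol]; exact hγ)]

/-- There is a colour outside a list of five colours. -/
lemma exists_color (hm : 5 ≤ m) (a b c' d e : Fin (m + 1)) :
    ∃ γ : Fin (m + 1), γ ≠ a ∧ γ ≠ b ∧ γ ≠ c' ∧ γ ≠ d ∧ γ ≠ e := by
  classical
  have h : ({a, b, c', d, e} : Finset (Fin (m + 1))).card < (Finset.univ : Finset (Fin (m + 1))).card := by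
    have : ({a, b, c', d, e} : Finset (Fin (m + 1))).card ≤ 5 := Finset.card_le_five
    simp only [Finset.card_univ, Fintype.card_fin]
    omega
  obtain ⟨γ, -, hγ⟩ := Finset.exists_mem_notMem_of_card_lt_card h
  simp only [Finset.mem_insert, Finset.mem_singleton, not_or] at hγ
  exact ⟨γ, hγ.1, hγ.2.1, hγ.2.2.1, hγ.2.2.2.1, hγ.2.2.2.2⟩

/-- Two adjacent copies cannot miss the same colour. -/
lemma no_adjacent (hm : 5 ≤ m) (hH : H.Connected)
    (hdeg : ∀ i : Fin n, ∃ s t, ∀ r, H.Adj i r → r = s ∨ r = t)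
    (hc : IsLocating ((⊤ : SimpleGraph (Fin m)) □ H) c) (a : Fin n → Fin (m + 1))
    (ha : ∀ i v, c (v, i) ≠ a i) (ha' : ∀ i γ, γ ≠ a i → ∃ v, c (v, i) = γ)
    {i j : Fin n} (hij : H.Adj i j) : a i ≠ a j := by
  intro heq
  obtain ⟨α, hα⟩ : ∃ α, a i = α := ⟨_, rfl⟩
  -- the set of copies missing `α` which have a neighbour missing `α`
  let T : Set (Fin n) := {x | a x = α ∧ ∃ y, H.Adj x y ∧ a y = α}
  have hiT : i ∈ T := ⟨hα, j, hij, by rw [← heq]; exact hα⟩
  obtain ⟨⟨v₀, l⟩, hl⟩ := hc.2.1 α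
  have hlT : l ∉ T := by
    intro hlT
    have : a l = α := hlT.1
    exact ha l v₀ (hl.trans this.symm)
  obtain ⟨p⟩ := hH i l
  obtain ⟨d, -, hd1, hd2⟩ := p.exists_boundary_dart T hiT hlT
  obtain ⟨⟨x, z⟩, hxz⟩ := d
  simp only at hd1 hd2 hxz
  obtain ⟨hx, y, hxy, hy⟩ := hd1
  have hz : a z ≠ α := by
    intro hz
    exact hd2 ⟨hz, x, hxz.symm, hx⟩
  have hyz : y ≠ z := by
    rintro rfl
    exact hz hy
  -- neighbours of x are exactly y, z
  have hnx : ∀ r, H.Adj x r → r = y ∨ r = z := by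
    obtain ⟨s, t, hst⟩ := hdeg x
    intro r hr
    rcases hst y hxy with h1 | h1 <;> rcases hst z hxz with h2 | h2 <;>
      rcases hst r hr with h3 | h3 <;> simp_all
  obtain ⟨u, hu⟩ := ha' z α (Ne.symm hz)
  have hmx : ∀ w, c (w, x) ≠ α := fun w => by rw [← hx]; exact ha x w
  have hmy : ∀ w, c (w, y) ≠ α := fun w => by rw [← hy]; exact ha y w
  have hne : ∃ x, c x = α := ⟨_, hu⟩
  -- distance from copy x
  have hDx : ∀ w, w ≠ u →
      distToSet ((⊤ : SimpleGraph (Fin m)) □ H) (w, x) {x | c x = α} = 2 := by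
    intro w hw
    apply le_antisymm (d_le_two hH hxz hu)
    apply d_ge_two hH hne hmx
    intro r hr hcr
    rcases hnx r hr with rfl | rfl
    · exact hmy w hcr
    · exact hw (inj_copy hc (hcr.trans hu.symm))
  by_cases hcase : ∃ t, H.Adj y t ∧ c (u, t) = α
  · obtain ⟨t, hyt, hut⟩ := hcase
    have htx : x ≠ t := by
      rintro rfl
      exact hmx u hut
    have hny : ∀ r, H.Adj y r → r = x ∨ r = t := by
      obtain ⟨s, t', hst⟩ := hdeg y
      intro r hr
      rcases hst x hxy.symm with h1 | h1 <;> rcases hst t hyt with h2 | h2 <;>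
        rcases hst r hr with h3 | h3 <;> simp_all
    have hDy : ∀ w, w ≠ u →
        distToSet ((⊤ : SimpleGraph (Fin m)) □ H) (w, y) {x | c x = α} = 2 := by
      intro w hw
      apply le_antisymm (d_le_two hH hyt hut)
      apply d_ge_two hH hne hmy
      intro r hr hcr
      rcases hny r hr with rfl | rfl
      · exact hmx w hcr
      · exact hw (inj_copy hc (hcr.trans hut.symm))
    obtain ⟨γ, hγ1, hγ2, hγ3, -, -⟩ := exists_color hm α (c (u, x)) (c (u, y)) α α
    obtain ⟨w1, hw1⟩ := ha' x γ (by rw [hx]; exact hγ1)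
    obtain ⟨w2, hw2⟩ := ha' y γ (by rw [hy]; exact hγ1)
    have hw1u : w1 ≠ u := by
      rintro rfl
      exact hγ2 hw1.symm
    have hw2u : w2 ≠ u := by
      rintro rfl
      exact hγ3 hw2.symm
    have := same_code hH hc (α := α) (by rw [← hx]; exact ha' x) (by rw [← hy]; exact ha' y)
      (hw1.trans hw2.symm) ((hDx w1 hw1u).trans (hDy w2 hw2u).symm)
    exact hxy.ne this
  · push Not at hcase
    have hDy : distToSet ((⊤ : SimpleGraph (Fin m)) □ H) (u, y) {x | c x = α} = 2 := by
      apply le_antisymm (d_le_two' hH hxy.symm hxz hu)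
      exact d_ge_two hH hne hmy hcase
    obtain ⟨w, hw⟩ := ha' x (c (u, y)) (by rw [hx]; exact hmy u)
    have hwu : w ≠ u := by
      rintro rfl
      exact ne_adj hc hxy hw
    have := same_code hH hc (α := α) (by rw [← hx]; exact ha' x) (by rw [← hy]; exact ha' y)
      hw ((hDx w hwu).trans hDy.symm)
    exact hxy.ne this

/-- The missing colours of distinct copies are distinct. -/
lemma missing_injective (hm : 5 ≤ m) (hn : 2 ≤ n) (hH : H.Connected)
    (hdeg : ∀ i : Fin n, ∃ s t, ∀ r, H.Adj i r → r = s ∨ r = t)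
    (hc : IsLocating ((⊤ : SimpleGraph (Fin m)) □ H) c) (a : Fin n → Fin (m + 1))
    (ha : ∀ i v, c (v, i) ≠ a i) (ha' : ∀ i γ, γ ≠ a i → ∃ v, c (v, i) = γ) :
    Function.Injective a := by
  have hnt : Nontrivial (Fin n) := Fin.nontrivial_iff_two_le.mpr hn
  -- in each copy there are two columns outside which the distance to the missing colour is 2
  have key : ∀ i, ∃ p q : Fin m, ∀ w, w ≠ p → w ≠ q →
      distToSet ((⊤ : SimpleGraph (Fin m)) □ H) (w, i) {x | c x = a i} = 2 := by
    intro i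
    obtain ⟨s, t, hst⟩ := hdeg i
    -- the column of the colour `a i` in copy r
    have hcolumn : ∀ r, ∃ p : Fin m, ∀ w, c (w, r) = a i → w = p := by
      intro r
      by_cases h : ∃ p, c (p, r) = a i
      · obtain ⟨p, hp⟩ := h
        exact ⟨p, fun w hw => inj_copy hc (hw.trans hp.symm)⟩
      · push Not at h
        exact ⟨⟨0, by omega⟩, fun w hw => absurd hw (h w)⟩
    obtain ⟨p, hp⟩ := hcolumn s
    obtain ⟨q, hq⟩ := hcolumn t
    refine ⟨p, q, fun w hwp hwq => ?_⟩
    obtain ⟨r, hr⟩ := hH.preconnected.exists_adj_of_nontrivial i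
    have hri : a r ≠ a i := fun h => no_adjacent hm hH hdeg hc a ha ha' hr h.symm
    obtain ⟨x, hx⟩ := ha' r (a i) hri.symm
    apply le_antisymm (d_le_two hH hr hx)
    apply d_ge_two hH ⟨_, hx⟩ (ha i)
    intro j hj hcj
    rcases hst j hj with rfl | rfl
    · exact hwp (hp w hcj)
    · exact hwq (hq w hcj)
  intro i j hij
  by_contra hne
  obtain ⟨p, q, hpq⟩ := key i
  obtain ⟨p', q', hpq'⟩ := key j
  obtain ⟨γ, h1, h2, h3, h4, h5⟩ := exists_color hm (a i) (c (p, i)) (c (q, i)) (c (p', j)) (c (q', j))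
  obtain ⟨w1, hw1⟩ := ha' i γ h1
  obtain ⟨w2, hw2⟩ := ha' j γ (by rw [← hij]; exact h1)
  have e1 : w1 ≠ p := by rintro rfl; exact h2 hw1.symm
  have e2 : w1 ≠ q := by rintro rfl; exact h3 hw1.symm
  have e3 : w2 ≠ p' := by rintro rfl; exact h4 hw2.symm
  have e4 : w2 ≠ q' := by rintro rfl; exact h5 hw2.symm
  have hd2 := hpq' w2 e3 e4
  rw [← hij] at hd2
  exact hne (same_code hH hc (ha' i) (by rw [hij]; exact ha' j) (hw1.trans hw2.symm)
    ((hpq w1 e1 e2).trans hd2.symm))

lemma lower_two (hm : 5 ≤ m) (hn : 2 ≤ n) (hH : H.Connected)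
    (hdeg : ∀ i : Fin n, ∃ s t, ∀ r, H.Adj i r → r = s ∨ r = t)
    (hc : IsLocating ((⊤ : SimpleGraph (Fin m)) □ H) c) : n ≤ m + 1 := by
  choose a ha ha' using fun i => exists_missing hc i
  have := Fintype.card_le_of_injective a (missing_injective hm hn hH hdeg hc a ha ha')
  simpa using this

end Lower2

section UpperB

lemma dist_eq_of_potential {V : Type*} (G : SimpleGraph V) (hG : G.Connected) (z : V) (f : V → ℕ)
    (h0 : f z = 0) (hdesc : ∀ x, x ≠ z → ∃ y, G.Adj x y ∧ f y + 1 = f x)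
    (hlip : ∀ x y, G.Adj x y → f x ≤ f y + 1) (x : V) : G.dist x z = f x := by
  apply le_antisymm
  · have key : ∀ N : ℕ, ∀ x, f x = N → G.dist x z ≤ N := by
      intro N
      induction N with
      | zero =>
        intro x hx
        by_cases hxz : x = z
        · rw [hxz]; simp
        · obtain ⟨y, -, hy⟩ := hdesc x hxz
          omega
      | succ N ih =>
        intro x hx
        by_cases hxz : x = z
        · rw [hxz]; simp
        · obtain ⟨y, hxy, hy⟩ := hdesc x hxz
          have h1 := ih y (by omega)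
          have h2 : G.dist x z ≤ G.dist x y + G.dist y z := hG.dist_triangle
          have h3 : G.dist x y = 1 := dist_eq_one_iff_adj.mpr hxy
          omega
    exact key _ x rfl
  · obtain ⟨p, hp⟩ := hG.exists_walk_length_eq_dist x z
    rw [← hp]
    have key : ∀ (u v : V) (p : G.Walk u v), f u ≤ f v + p.length := by
      intro u v p
      induction p with
      | nil => simp
      | cons h p ih =>
        rw [Walk.length_cons]
        have := hlip _ _ h
        omega
    have := key x z p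
    omega

lemma locating_of_triple {m n k : ℕ} {H : SimpleGraph (Fin n)} (hm : 0 < m) (hH : H.Connected)
    (c : Fin m × Fin n → Fin k)
    (hprop : ∀ u v, ((⊤ : SimpleGraph (Fin m)) □ H).Adj u v → c u ≠ c v)
    (hsurj : Function.Surjective c) (A B : Fin k) (xA xB : Fin m × Fin n)
    (hA : ∀ x, c x = A ↔ x = xA) (hB : ∀ x, c x = B ↔ x = xB)
    (hinj : ∀ x y, c x = c y →
      ((⊤ : SimpleGraph (Fin m)) □ H).dist x xA = ((⊤ : SimpleGraph (Fin m)) □ H).dist y xA →
      ((⊤ : SimpleGraph (Fin m)) □ H).dist x xB = ((⊤ : SimpleGraph (Fin m)) □ H).dist y xB →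
      x = y) : IsLocating ((⊤ : SimpleGraph (Fin m)) □ H) c := by
  refine ⟨hprop, hsurj, ?_⟩
  intro x y hxy
  have hAset : {w | c w = A} = {xA} := by
    ext w; simp [hA]
  have hBset : {w | c w = B} = {xB} := by
    ext w; simp [hB]
  have h1 := hxy A
  have h2 := hxy B
  rw [hAset, distToSet_singleton, distToSet_singleton] at h1
  rw [hBset, distToSet_singleton, distToSet_singleton] at h2
  apply hinj x y _ h1 h2
  have h3 := hxy (c x)
  rw [distToSet_self (show x ∈ {w | c w = c x} from rfl)] at h3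
  by_contra hne
  have := distToSet_pos (conn_prod hm hH) (v := y) (S := {w | c w = c x}) ⟨x, rfl⟩
    (fun h => hne (Eq.symm h))
  omega

lemma dist_path {n : ℕ} (hn : 0 < n) (x : Fin n) :
    (pathGraph n).dist x ⟨0, hn⟩ = x.val := by
  obtain ⟨n, rfl⟩ : ∃ k, n = k + 1 := ⟨n - 1, by omega⟩
  refine dist_eq_of_potential _ (pathGraph_connected n) _ (fun x => x.val) rfl ?_ ?_ x
  · intro x hx
    have hx0 : x.val ≠ 0 := fun h => hx (Fin.ext h)
    clear hx
    refine ⟨⟨x.val - 1, by omega⟩, ?_, ?_⟩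
    · rw [pathGraph_adj]
      right
      simp only
      omega
    · simp only
      omega
  · intro x y hxy
    rw [pathGraph_adj] at hxy
    omega

lemma cycle_adj_iff {n : ℕ} (hn : 3 ≤ n) (u v : Fin n) :
    (cycleGraph n).Adj u v ↔ (u.val + 1 = v.val ∨ v.val + 1 = u.val ∨
      (u.val = 0 ∧ v.val + 1 = n) ∨ (v.val = 0 ∧ u.val + 1 = n)) := by
  rw [cycleGraph_adj']
  have hu := u.2
  have hv := v.2
  have key : ∀ a b : Fin n, (a - b).val = 1 ↔ (b.val + 1 = a.val ∨ (a.val = 0 ∧ b.val + 1 = n)) := by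
    intro a b
    have ha := a.2
    have hb := b.2
    rw [Fin.sub_def]
    simp only
    by_cases h : b.val ≤ a.val
    · have : n - b.val + a.val = (a.val - b.val) + n := by omega
      rw [this, Nat.add_mod_right, Nat.mod_eq_of_lt (by omega)]
      omega
    · rw [Nat.mod_eq_of_lt (by omega)]
      omega
  rw [key, key]
  omega

lemma dist_cycle_zero {n : ℕ} (hn : 3 ≤ n) (x : Fin n) :
    (cycleGraph n).dist x ⟨0, by omega⟩ = min x.val (n - x.val) := by
  obtain ⟨k, rfl⟩ : ∃ k, n = k + 1 := ⟨n - 1, by omega⟩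
  refine dist_eq_of_potential _ cycleGraph_connected _
    (fun x => min x.val (k + 1 - x.val)) (by simp) ?_ ?_ x
  · intro x hx
    have hx0 : x.val ≠ 0 := fun h => hx (Fin.ext h)
    clear hx
    by_cases hle : x.val ≤ k + 1 - x.val
    · refine ⟨⟨x.val - 1, by omega⟩, ?_, ?_⟩
      · rw [cycle_adj_iff hn]
        simp only
        omega
      · simp only
        omega
    · by_cases hlast : x.val + 1 = k + 1
      · refine ⟨⟨0, by omega⟩, ?_, ?_⟩
        · rw [cycle_adj_iff hn]
          exact Or.inr (Or.inr (Or.inr ⟨rfl, hlast⟩))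
        · simp only
          omega
      · refine ⟨⟨x.val + 1, by omega⟩, ?_, ?_⟩
        · rw [cycle_adj_iff hn]
          exact Or.inl rfl
        · simp only
          omega
  · intro x y hxy
    rw [cycle_adj_iff hn] at hxy
    have := x.2
    have := y.2
    omega

lemma dist_cycle_one {n : ℕ} (hn : 3 ≤ n) (x : Fin n) :
    (cycleGraph n).dist x ⟨1, by omega⟩ =
      if x.val = 0 then 1 else min (x.val - 1) (n + 1 - x.val) := by
  obtain ⟨k, rfl⟩ : ∃ k, n = k + 1 := ⟨n - 1, by omega⟩
  refine dist_eq_of_potential _ cycleGraph_connected _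
    (fun x => if x.val = 0 then 1 else min (x.val - 1) (k + 1 + 1 - x.val)) (by simp) ?_ ?_ x
  · intro x hx
    have hx0 : x.val ≠ 1 := fun h => hx (Fin.ext h)
    clear hx
    have hx2 := x.2
    by_cases h0 : x.val = 0
    · refine ⟨⟨1, by omega⟩, ?_, ?_⟩
      · rw [cycle_adj_iff hn]
        exact Or.inl (by rw [h0])
      · simp only [h0]
        simp
    by_cases hle : x.val - 1 ≤ k + 1 + 1 - x.val
    · refine ⟨⟨x.val - 1, by omega⟩, ?_, ?_⟩
      · rw [cycle_adj_iff hn]
        simp only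
        omega
      · simp only
        split_ifs <;> omega
    · by_cases hlast : x.val + 1 = k + 1
      · refine ⟨⟨0, by omega⟩, ?_, ?_⟩
        · rw [cycle_adj_iff hn]
          exact Or.inr (Or.inr (Or.inr ⟨rfl, hlast⟩))
        · simp only
          split_ifs <;> omega
      · refine ⟨⟨x.val + 1, by omega⟩, ?_, ?_⟩
        · rw [cycle_adj_iff hn]
          exact Or.inl rfl
        · rw [if_neg (by simp), if_neg h0]
          simp only
          omega
  · intro x y hxy
    rw [cycle_adj_iff hn] at hxy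
    have := x.2
    have := y.2
    split_ifs <;> omega

/-- colour values for the path colouring -/
def pc (m v t : ℕ) : ℕ :=
  if v = 0 ∧ t = 0 then m else if v = 1 ∧ t = 0 then m + 1 else
    if v + t % 2 < m then v + t % 2 else v + t % 2 - m

lemma pc_lt {m v t : ℕ} (hv : v < m) : pc m v t < m + 2 := by
  unfold pc
  split_ifs <;> omega

lemma path_upper {m n : ℕ} (hm : 2 ≤ m) (hn : 2 ≤ n) :
    ∃ c : Fin m × Fin n → Fin (m + 2), IsLocating ((⊤ : SimpleGraph (Fin m)) □ pathGraph n) c := by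
  have hH : (pathGraph n).Connected := by
    obtain ⟨k, rfl⟩ : ∃ k, n = k + 1 := ⟨n - 1, by omega⟩
    exact pathGraph_connected k
  refine ⟨fun x => ⟨pc m x.1.val x.2.val, pc_lt x.1.2⟩, ?_⟩
  refine locating_of_triple (by omega) hH _ ?_ ?_ ⟨m, by omega⟩ ⟨m + 1, by omega⟩
    (⟨0, by omega⟩, ⟨0, by omega⟩) (⟨1, by omega⟩, ⟨0, by omega⟩) ?_ ?_ ?_
  · rintro ⟨v, t⟩ ⟨w, s⟩ hadj heq
    rw [boxProd_adj, pathGraph_adj] at hadj
    simp only [top_adj, ne_eq, Fin.ext_iff] at hadj
    have heq' : pc m v.val t.val = pc m w.val s.val := congrArg Fin.val heq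
    clear heq
    have h1 := v.2
    have h2 := w.2
    unfold pc at heq'
    split_ifs at heq' <;> omega
  · rintro ⟨γ, hγ⟩
    by_cases h1 : γ = m
    · refine ⟨(⟨0, by omega⟩, ⟨0, by omega⟩), ?_⟩
      apply Fin.ext
      simp [pc, h1]
    by_cases h2 : γ = m + 1
    · refine ⟨(⟨1, by omega⟩, ⟨0, by omega⟩), ?_⟩
      apply Fin.ext
      simp [pc, h2]
    by_cases h3 : γ = 0
    · refine ⟨(⟨m - 1, by omega⟩, ⟨1, by omega⟩), ?_⟩
      apply Fin.ext
      have key : ∀ t, t = 1 → pc m (m - 1) t = γ := by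
        intro t ht
        unfold pc
        split_ifs <;> omega
      exact key 1 rfl
    · refine ⟨(⟨γ - 1, by omega⟩, ⟨1, by omega⟩), ?_⟩
      apply Fin.ext
      have key : ∀ t, t = 1 → pc m (γ - 1) t = γ := by
        intro t ht
        unfold pc
        split_ifs <;> omega
      exact key 1 rfl
  · rintro ⟨v, t⟩
    simp only [Fin.ext_iff, Prod.ext_iff]
    have h1 := v.2
    unfold pc
    split_ifs <;> omega
  · rintro ⟨v, t⟩
    simp only [Fin.ext_iff, Prod.ext_iff]
    have h1 := v.2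
    unfold pc
    split_ifs <;> omega
  · rintro ⟨v, t⟩ ⟨w, s⟩ hcol hA hB
    rw [dist_prod hH, dist_prod hH, dist_path, dist_path] at hA hB
    simp only [Fin.ext_iff] at hA hB hcol
    simp only [Fin.ext_iff, Prod.ext_iff]
    have h1 := v.2
    have h2 := w.2
    unfold pc at hcol
    split_ifs at hA hB hcol <;> omega

/-- base sequence for the cycle colouring -/
def cf (n t : ℕ) : ℕ :=
  if 1 ≤ t ∧ t ≤ n / 2 then (if (n / 2 - t) % 2 = 0 then 3 else 4) else
    if n % 2 = 1 ∧ t = n / 2 + 1 then 2 else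
      if t = 0 then (if (n / 2 - 1) % 2 = 0 then 1 else 0) else
        (if (n / 2 - 1 - (n - t)) % 2 = 0 then 1 else 0)

/-- colour values for the cycle colouring -/
def cc (m n v t : ℕ) : ℕ :=
  if v = 0 ∧ t = 0 then m else if v = 1 ∧ t = 1 then m + 1 else
    if v + cf n t < m then v + cf n t else v + cf n t - m

lemma cf_le (n t : ℕ) : cf n t ≤ 4 := by
  unfold cf
  split_ifs <;> omega

lemma cc_lt {m n v t : ℕ} (hm : 5 ≤ m) (hv : v < m) : cc m n v t < m + 2 := by
  have := cf_le n t
  unfold cc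
  split_ifs <;> omega

/-- `cf` takes different values at cyclically adjacent positions. -/
lemma cf_adj {n t s : ℕ} (hn : 3 ≤ n) (ht : t < n) (hs : s < n)
    (h : t + 1 = s ∨ (t = 0 ∧ s + 1 = n)) : cf n t ≠ cf n s := by
  unfold cf
  split_ifs <;> omega

lemma cf_side1 {n t : ℕ} (h1 : 1 ≤ t) (h2 : t ≤ n / 2) : cf n t = 3 ∨ cf n t = 4 := by
  unfold cf
  split_ifs <;> omega

lemma cf_side2 {n t : ℕ} (h : t = 0 ∨ n < 2 * t ∧ ¬ (n % 2 = 1 ∧ t = n / 2 + 1)) :
    cf n t = 0 ∨ cf n t = 1 := by
  unfold cf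
  split_ifs <;> omega

lemma cf_mid {n t : ℕ} (h : n % 2 = 1 ∧ t = n / 2 + 1) : cf n t = 2 := by
  unfold cf
  split_ifs <;> omega

lemma cf_mid_left {n t : ℕ} (hn : 3 ≤ n) (h : t = n / 2) : cf n t = 3 := by
  unfold cf
  split_ifs <;> omega

lemma cf_mid_right {n t : ℕ} (h : n % 2 = 1 ∧ t = n / 2 + 2 ∧ t < n) : cf n t = 1 := by
  unfold cf
  split_ifs <;> omega

/-- The data of a position `t` on the cycle: its distances `p` to `0` and `q` to `1` and the base
value `F`. -/
lemma t_class {n t : ℕ} (hn : 4 ≤ n) (ht : t < n) :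
    (1 ≤ t ∧ t ≤ n / 2 ∧ min t (n - t) = t ∧ (if t = 0 then 1 else min (t - 1) (n + 1 - t)) + 1 = t
      ∧ (cf n t = 3 ∨ (cf n t = 4 ∧ t ≠ n / 2))) ∨
    (n % 2 = 1 ∧ t = n / 2 + 1 ∧ min t (n - t) = n / 2 ∧
      (if t = 0 then 1 else min (t - 1) (n + 1 - t)) = n / 2 ∧ cf n t = 2) ∨
    (∃ x, x + 1 ≤ n / 2 ∧ (t = 0 ∧ x = 0 ∨ t + x = n ∧ 1 ≤ x) ∧ min t (n - t) = x ∧
      (if t = 0 then 1 else min (t - 1) (n + 1 - t)) = x + 1 ∧
      (cf n t = 1 ∨ (cf n t = 0 ∧ (x + 1 = n / 2 → n % 2 = 0)))) := by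
  by_cases h1 : 1 ≤ t ∧ t ≤ n / 2
  · left
    rw [if_neg (by omega)]
    refine ⟨h1.1, h1.2, by omega, by omega, ?_⟩
    by_cases h2 : t = n / 2
    · exact Or.inl (cf_mid_left (by omega) h2)
    · rcases cf_side1 h1.1 h1.2 with h | h
      · exact Or.inl h
      · exact Or.inr ⟨h, h2⟩
  · right
    by_cases h2 : n % 2 = 1 ∧ t = n / 2 + 1
    · left
      rw [if_neg (by omega)]
      exact ⟨h2.1, h2.2, by omega, by omega, cf_mid h2⟩
    · right
      by_cases h0 : t = 0
      · refine ⟨0, by omega, Or.inl ⟨h0, rfl⟩, by omega, by rw [if_pos h0], ?_⟩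
        rcases cf_side2 (Or.inl h0) with h | h
        · exact Or.inr ⟨h, by omega⟩
        · exact Or.inl h
      · rw [if_neg h0]
        refine ⟨n - t, by omega, Or.inr ⟨by omega, by omega⟩, by omega, by omega, ?_⟩
        by_cases h4 : n % 2 = 1 ∧ t = n / 2 + 2
        · exact Or.inl (cf_mid_right ⟨h4.1, h4.2, ht⟩)
        · rcases cf_side2 (n := n) (t := t) (Or.inr ⟨by omega, h2⟩) with h | h
          · exact Or.inr ⟨h, by omega⟩
          · exact Or.inl h

lemma inj_core {m n v w t s a b a' b' p q p' q' F G : ℕ} (hm : 5 ≤ m) (hv : v < m) (hw : w < m)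
    (hts : t ≠ s)
    (hcol : v + F = w + G ∨ v + F = w + G + m ∨ v + F + m = w + G)
    (hA : a + p = a' + p') (hB : b + q = b' + q')
    (hab : (v = 0 ∧ a = 0 ∧ b = 1) ∨ (v = 1 ∧ a = 1 ∧ b = 0) ∨ (2 ≤ v ∧ a = 1 ∧ b = 1))
    (hab' : (w = 0 ∧ a' = 0 ∧ b' = 1) ∨ (w = 1 ∧ a' = 1 ∧ b' = 0) ∨ (2 ≤ w ∧ a' = 1 ∧ b' = 1))
    (ht1 : (1 ≤ t ∧ t ≤ n / 2 ∧ p = t ∧ q + 1 = t ∧ (F = 3 ∨ (F = 4 ∧ t ≠ n / 2))) ∨
        (n % 2 = 1 ∧ t = n / 2 + 1 ∧ p = n / 2 ∧ q = n / 2 ∧ F = 2) ∨
        (∃ x, x + 1 ≤ n / 2 ∧ (t = 0 ∧ x = 0 ∨ t + x = n ∧ 1 ≤ x) ∧ p = x ∧ q = x + 1 ∧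
          (F = 1 ∨ (F = 0 ∧ (x + 1 = n / 2 → n % 2 = 0)))))
    (hs1 : (1 ≤ s ∧ s ≤ n / 2 ∧ p' = s ∧ q' + 1 = s ∧ (G = 3 ∨ (G = 4 ∧ s ≠ n / 2))) ∨
        (n % 2 = 1 ∧ s = n / 2 + 1 ∧ p' = n / 2 ∧ q' = n / 2 ∧ G = 2) ∨
        (∃ x, x + 1 ≤ n / 2 ∧ (s = 0 ∧ x = 0 ∨ s + x = n ∧ 1 ≤ x) ∧ p' = x ∧ q' = x + 1 ∧
          (G = 1 ∨ (G = 0 ∧ (x + 1 = n / 2 → n % 2 = 0))))) : False := by
  rcases ht1 with ht1 | ht1 | ⟨x, ht1⟩ <;> rcases hs1 with hs1 | hs1 | ⟨y, hs1⟩
  · rcases hab with hab | hab | hab <;> rcases hab' with hab' | hab' | hab' <;> omega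
  · rcases hab with hab | hab | hab <;> rcases hab' with hab' | hab' | hab' <;> omega
  · rcases hab with hab | hab | hab <;> rcases hab' with hab' | hab' | hab' <;> omega
  · rcases hab with hab | hab | hab <;> rcases hab' with hab' | hab' | hab' <;> omega
  · rcases hab with hab | hab | hab <;> rcases hab' with hab' | hab' | hab' <;> omega
  · rcases hab with hab | hab | hab <;> rcases hab' with hab' | hab' | hab' <;> omega
  · rcases hab with hab | hab | hab <;> rcases hab' with hab' | hab' | hab' <;> omega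
  · rcases hab with hab | hab | hab <;> rcases hab' with hab' | hab' | hab' <;> omega
  · rcases hab with hab | hab | hab <;> rcases hab' with hab' | hab' | hab' <;> omega

lemma cycle_inj {m n v w t s : ℕ} (hm : 5 ≤ m) (hn : 4 ≤ n) (hv : v < m) (hw : w < m)
    (ht : t < n) (hs : s < n) (hcol : cc m n v t = cc m n w s)
    (hA : (if v = 0 then 0 else 1) + min t (n - t) = (if w = 0 then 0 else 1) + min s (n - s))
    (hB : (if v = 1 then 0 else 1) + (if t = 0 then 1 else min (t - 1) (n + 1 - t)) =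
      (if w = 1 then 0 else 1) + (if s = 0 then 1 else min (s - 1) (n + 1 - s))) :
    v = w ∧ t = s := by
  have ht4 := cf_le n t
  have hs4 := cf_le n s
  by_cases hts : t = s
  · subst hts
    refine ⟨?_, rfl⟩
    unfold cc at hcol
    clear hA hB
    split_ifs at hcol <;> omega
  · exfalso
    have r1 : ¬ (v = 0 ∧ t = 0) := by
      intro h
      clear hA hB
      unfold cc at hcol
      rw [if_pos h] at hcol
      split_ifs at hcol <;> omega
    have r2 : ¬ (v = 1 ∧ t = 1) := by
      intro h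
      clear hA hB
      unfold cc at hcol
      rw [if_neg r1, if_pos h] at hcol
      split_ifs at hcol <;> omega
    have r3 : ¬ (w = 0 ∧ s = 0) := by
      intro h
      clear hA hB
      unfold cc at hcol
      rw [if_neg r1, if_neg r2, if_pos h] at hcol
      split_ifs at hcol <;> omega
    have r4 : ¬ (w = 1 ∧ s = 1) := by
      intro h
      clear hA hB
      unfold cc at hcol
      rw [if_neg r1, if_neg r2, if_neg r3, if_pos h] at hcol
      split_ifs at hcol <;> omega
    have hcol' : v + cf n t = w + cf n s ∨ v + cf n t = w + cf n s + m ∨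
        v + cf n t + m = w + cf n s := by
      unfold cc at hcol
      rw [if_neg r1, if_neg r2, if_neg r3, if_neg r4] at hcol
      clear hA hB
      split_ifs at hcol <;> omega
    clear hcol
    have hab : (v = 0 ∧ (if v = 0 then 0 else 1) = 0 ∧ (if v = 1 then 0 else 1) = 1) ∨
        (v = 1 ∧ (if v = 0 then 0 else 1) = 1 ∧ (if v = 1 then 0 else 1) = 0) ∨
        (2 ≤ v ∧ (if v = 0 then 0 else 1) = 1 ∧ (if v = 1 then 0 else 1) = 1) := by
      clear hA hB hcol'
      split_ifs <;> omega
    have hab' : (w = 0 ∧ (if w = 0 then 0 else 1) = 0 ∧ (if w = 1 then 0 else 1) = 1) ∨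
        (w = 1 ∧ (if w = 0 then 0 else 1) = 1 ∧ (if w = 1 then 0 else 1) = 0) ∨
        (2 ≤ w ∧ (if w = 0 then 0 else 1) = 1 ∧ (if w = 1 then 0 else 1) = 1) := by
      clear hA hB hcol'
      split_ifs <;> omega
    exact inj_core hm hv hw hts hcol' hA hB hab hab' (t_class hn ht) (t_class hn hs)

lemma cycle_upper {m n : ℕ} (hm : 5 ≤ m) (hn4 : 4 ≤ n) :
    ∃ c : Fin m × Fin n → Fin (m + 2), IsLocating ((⊤ : SimpleGraph (Fin m)) □ cycleGraph n) c := by
  have hn : 3 ≤ n := by omega
  have hH : (cycleGraph n).Connected := by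
    obtain ⟨k, rfl⟩ : ∃ k, n = k + 1 := ⟨n - 1, by omega⟩
    exact cycleGraph_connected
  refine ⟨fun x => ⟨cc m n x.1.val x.2.val, cc_lt hm x.1.2⟩, ?_⟩
  refine locating_of_triple (by omega) hH _ ?_ ?_ ⟨m, by omega⟩ ⟨m + 1, by omega⟩
    (⟨0, by omega⟩, ⟨0, by omega⟩) (⟨1, by omega⟩, ⟨1, by omega⟩) ?_ ?_ ?_
  · rintro ⟨v, t⟩ ⟨w, s⟩ hadj heq
    rw [boxProd_adj, cycle_adj_iff hn] at hadj
    simp only [top_adj, ne_eq, Fin.ext_iff] at hadj
    have heq' : cc m n v.val t.val = cc m n w.val s.val := congrArg Fin.val heq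
    clear heq
    have h1 := v.2
    have h2 := w.2
    have h3 := cf_le n t.val
    have h4 := cf_le n s.val
    rcases hadj with ⟨hne, hts⟩ | ⟨hadj, hvw⟩
    · rw [hts] at heq' h3
      unfold cc at heq'
      split_ifs at heq' <;> omega
    · have hcf : cf n t.val ≠ cf n s.val := by
        rcases hadj with h | h | h | h
        · exact cf_adj hn t.2 s.2 (Or.inl h)
        · exact (cf_adj hn s.2 t.2 (Or.inl h)).symm
        · exact cf_adj hn t.2 s.2 (Or.inr h)
        · exact (cf_adj hn s.2 t.2 (Or.inr h)).symm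
      rw [hvw] at heq'
      unfold cc at heq'
      split_ifs at heq' <;> omega
  · rintro ⟨γ, hγ⟩
    by_cases h1 : γ = m
    · refine ⟨(⟨0, by omega⟩, ⟨0, by omega⟩), ?_⟩
      apply Fin.ext
      simp [cc, h1]
    by_cases h2 : γ = m + 1
    · refine ⟨(⟨1, by omega⟩, ⟨1, by omega⟩), ?_⟩
      apply Fin.ext
      simp [cc, h2]
    have h3 := cf_le n 2
    by_cases h4 : cf n 2 ≤ γ
    · refine ⟨(⟨γ - cf n 2, by omega⟩, ⟨2, by omega⟩), ?_⟩
      apply Fin.ext
      have key : ∀ t, t = 2 → cc m n (γ - cf n t) t = γ := by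
        intro t ht
        have h4' : cf n t ≤ γ := by rw [ht]; exact h4
        unfold cc
        split_ifs <;> omega
      exact key 2 rfl
    · refine ⟨(⟨γ + m - cf n 2, by omega⟩, ⟨2, by omega⟩), ?_⟩
      apply Fin.ext
      have key : ∀ t, t = 2 → cc m n (γ + m - cf n t) t = γ := by
        intro t ht
        have h4' : ¬ cf n t ≤ γ := by rw [ht]; exact h4
        have h3' : cf n t ≤ 4 := cf_le n t
        unfold cc
        split_ifs <;> omega
      exact key 2 rfl
  · rintro ⟨v, t⟩
    simp only [Fin.ext_iff, Prod.ext_iff]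
    have h1 := v.2
    have h3 := cf_le n t.val
    unfold cc
    split_ifs <;> omega
  · rintro ⟨v, t⟩
    simp only [Fin.ext_iff, Prod.ext_iff]
    have h1 := v.2
    have h3 := cf_le n t.val
    unfold cc
    split_ifs <;> omega
  · rintro ⟨v, t⟩ ⟨w, s⟩ hcol hA hB
    rw [dist_prod hH, dist_prod hH] at hA hB
    simp only [dist_cycle_zero hn] at hA
    simp only [dist_cycle_one hn] at hB
    simp only [Fin.ext_iff] at hA hB hcol
    simp only [Fin.ext_iff, Prod.ext_iff]
    obtain ⟨v, hv⟩ := v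
    obtain ⟨w, hw⟩ := w
    obtain ⟨t, ht⟩ := t
    obtain ⟨s, hs⟩ := s
    simp only at hA hB hcol ⊢
    exact cycle_inj hm hn4 hv hw ht hs hcol hA hB

end UpperB

section UpperA

/-- Hall's theorem for a complete bipartite graph minus two matchings. -/
lemma matching (A B : Finset ℕ) (hcard : A.card = B.card) (h4 : 4 ≤ A.card)
    (F G : ℕ → Option ℕ)
    (hF : ∀ v ∈ A, ∀ w ∈ A, ∀ γ, F v = some γ → F w = some γ → v = w)
    (hG : ∀ v ∈ A, ∀ w ∈ A, ∀ γ, G v = some γ → G w = some γ → v = w) :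
    ∃ f : ℕ → ℕ, (∀ v ∈ A, f v ∈ B) ∧ (∀ v ∈ A, ∀ w ∈ A, f v = f w → v = w) ∧
      ∀ v ∈ A, F v ≠ some (f v) ∧ G v ≠ some (f v) := by
  classical
  let t : {v // v ∈ A} → Finset ℕ := fun v => B.filter (fun γ => F v ≠ some γ ∧ G v ≠ some γ)
  have hall : ∀ s : Finset {v // v ∈ A}, s.card ≤ (s.biUnion t).card := by
    intro s
    rcases s.eq_empty_or_nonempty with rfl | ⟨v, hv⟩
    · simp
    by_cases hs : s.card ≤ 2
    · have h1 : (t v).card ≤ (s.biUnion t).card :=
        Finset.card_le_card (Finset.subset_biUnion_of_mem t hv)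
      have h2 : B.card ≤ (t v).card + 2 := by
        have hsub : B ⊆ (t v) ∪ (({(F v).getD 0, (G v).getD 0} : Finset ℕ)) := by
          intro γ hγ
          rw [Finset.mem_union]
          by_cases h : F v ≠ some γ ∧ G v ≠ some γ
          · left
            exact Finset.mem_filter.mpr ⟨hγ, h⟩
          · right
            rw [Finset.mem_insert, Finset.mem_singleton]
            by_cases h1 : F v = some γ
            · left; rw [h1]; rfl
            · right
              have : G v = some γ := by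
                by_contra h2
                exact h ⟨h1, h2⟩
              rw [this]; rfl
        calc B.card ≤ ((t v) ∪ (({(F v).getD 0, (G v).getD 0} : Finset ℕ))).card :=
              Finset.card_le_card hsub
          _ ≤ (t v).card + (({(F v).getD 0, (G v).getD 0} : Finset ℕ)).card :=
              Finset.card_union_le _ _
          _ ≤ (t v).card + 2 := by
              have := Finset.card_le_two (a := (F v).getD 0) (b := (G v).getD 0)
              omega
      omega
    · push Not at hs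
      have hB : B ⊆ s.biUnion t := by
        intro γ hγ
        by_contra hno
        have hall : ∀ v ∈ s, F v = some γ ∨ G v = some γ := by
          intro v hv
          by_contra h
          push Not at h
          apply hno
          exact Finset.mem_biUnion.mpr ⟨v, hv, Finset.mem_filter.mpr ⟨hγ, h⟩⟩
        have hc : s.card ≤ (s.filter (fun v : {v // v ∈ A} => F v = some γ)).card +
            (s.filter (fun v : {v // v ∈ A} => G v = some γ)).card := by
          rw [← Finset.card_union_add_card_inter]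
          have : s ⊆ (s.filter (fun v : {v // v ∈ A} => F v = some γ)) ∪ (s.filter (fun v : {v // v ∈ A} => G v = some γ)) := by
            intro v hv
            rw [Finset.mem_union, Finset.mem_filter, Finset.mem_filter]
            rcases hall v hv with h | h
            · exact Or.inl ⟨hv, h⟩
            · exact Or.inr ⟨hv, h⟩
          have := Finset.card_le_card this
          omega
        have h1 : (s.filter (fun v : {v // v ∈ A} => F v = some γ)).card ≤ 1 := by
          rw [Finset.card_le_one]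
          intro a ha b hb
          rw [Finset.mem_filter] at ha hb
          exact Subtype.ext (hF a a.2 b b.2 γ ha.2 hb.2)
        have h2 : (s.filter (fun v : {v // v ∈ A} => G v = some γ)).card ≤ 1 := by
          rw [Finset.card_le_one]
          intro a ha b hb
          rw [Finset.mem_filter] at ha hb
          exact Subtype.ext (hG a a.2 b b.2 γ ha.2 hb.2)
        omega
      have h1 := Finset.card_le_card hB
      have h2 : s.card ≤ A.card := by
        have := Finset.card_le_univ s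
        simpa using this
      omega
  obtain ⟨f, hf1, hf2⟩ := (Finset.all_card_le_biUnion_card_iff_exists_injective t).mp hall
  refine ⟨fun v => if h : v ∈ A then f ⟨v, h⟩ else 0, ?_, ?_, ?_⟩
  · intro v hv
    simp only [hv, dite_true]
    exact (Finset.mem_filter.mp (hf2 ⟨v, hv⟩)).1
  · intro v hv w hw h
    simp only [hv, hw, dite_true] at h
    exact congrArg Subtype.val (hf1 h)
  · intro v hv
    simp only [hv, dite_true]
    exact (Finset.mem_filter.mp (hf2 ⟨v, hv⟩)).2

/-- cyclic successor and predecessor on `{0, …, n-1}` -/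
def nx (n i : ℕ) : ℕ := if i + 1 = n then 0 else i + 1

def pv (n i : ℕ) : ℕ := if i = 0 then n - 1 else i - 1

/-- the column holding the colour `i` in the copies next to copy `i` -/
def uu (m i : ℕ) : ℕ := if i < m then i else 3

/-- the prescribed entries of row `i` -/
def r0 (m n i v : ℕ) : Option ℕ :=
  if v = uu m (nx n i) then some (nx n i) else
    if v = uu m (pv n i) then some (pv n i) else
      if v = uu m i then some (nx n (nx n i)) else none

lemma nx_lt {n i : ℕ} (hi : i < n) : nx n i < n := by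
  unfold nx; split_ifs <;> omega

lemma pv_lt {n i : ℕ} (hi : i < n) : pv n i < n := by
  unfold pv; split_ifs <;> omega

lemma nx_pv {n i : ℕ} (hi : i < n) : nx n (pv n i) = i := by
  unfold nx pv; split_ifs <;> omega

lemma pv_nx {n i : ℕ} : pv n (nx n i) = i := by
  unfold nx pv
  by_cases h : i + 1 = n
  · rw [if_pos h, if_pos rfl]; omega
  · rw [if_neg h, if_neg (by omega)]; omega

/-- the distinctness facts used below -/
lemma distinct_facts {m n i : ℕ} (hm : 7 ≤ m) (hn : 5 ≤ n) (hnm : n ≤ m + 1) (hi : i < n) :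
    uu m i < m ∧ uu m (nx n i) < m ∧ uu m (pv n i) < m ∧ uu m (nx n i) ≠ uu m (pv n i) ∧
    uu m (nx n i) ≠ uu m i ∧ uu m (pv n i) ≠ uu m i ∧
    nx n i ≠ i ∧ pv n i ≠ i ∧ nx n (nx n i) ≠ i ∧ nx n i ≠ pv n i ∧ nx n (nx n i) ≠ nx n i ∧
    nx n (nx n i) ≠ pv n i := by
  unfold uu nx pv
  refine ⟨?_, ?_, ?_, ?_, ?_, ?_, ?_, ?_, ?_, ?_, ?_, ?_⟩ <;> split_ifs <;> omega

/-- An incomplete array: rows `i < n`, columns `v < m`, colours `< m + 1`, extending `r0`. -/
def Good (m n : ℕ) (R : ℕ → ℕ → Option ℕ) : Prop :=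
  (∀ i < n, ∀ v < m, ∀ γ, R i v = some γ → γ < m + 1 ∧ γ ≠ i) ∧
  (∀ i < n, ∀ v < m, ∀ w < m, ∀ γ, R i v = some γ → R i w = some γ → v = w) ∧
  (∀ i < n, ∀ v < m, ∀ γ, R i v = some γ → R (nx n i) v ≠ some γ) ∧
  (∀ i < n, ∀ v < m, ∀ γ, r0 m n i v = some γ → R i v = some γ)

lemma r0_cases {m n i v γ : ℕ} (h : r0 m n i v = some γ) :
    (v = uu m (nx n i) ∧ γ = nx n i) ∨ (v = uu m (pv n i) ∧ γ = pv n i) ∨
      (v = uu m i ∧ γ = nx n (nx n i)) := by
  unfold r0 at h
  split_ifs at h with h1 h2 h3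
  · left; exact ⟨h1, (Option.some.inj h).symm⟩
  · right; left; exact ⟨h2, (Option.some.inj h).symm⟩
  · right; right; exact ⟨h3, (Option.some.inj h).symm⟩

lemma good_r0 {m n : ℕ} (hm : 7 ≤ m) (hn : 5 ≤ n) (hnm : n ≤ m + 1) : Good m n (r0 m n) := by
  refine ⟨?_, ?_, ?_, ?_⟩
  · intro i hi v hv γ h
    have hd := distinct_facts hm hn hnm hi
    have h1 := nx_lt hi
    have h2 := pv_lt hi
    have h3 := nx_lt (nx_lt hi)
    rcases r0_cases h with h | h | h
    · rw [h.2]; exact ⟨by omega, hd.2.2.2.2.2.2.1⟩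
    · rw [h.2]; exact ⟨by omega, hd.2.2.2.2.2.2.2.1⟩
    · rw [h.2]; exact ⟨by omega, hd.2.2.2.2.2.2.2.2.1⟩
  · intro i hi v hv w hw γ h h'
    obtain ⟨-, -, -, -, -, -, d1, d2, d3, d4, d5, d6⟩ := distinct_facts hm hn hnm hi
    rcases r0_cases h with h | h | h <;> rcases r0_cases h' with h' | h' | h'
    · rw [h.1, h'.1]
    · exact absurd (h.2.symm.trans h'.2) d4
    · exact absurd (h'.2.symm.trans h.2) d5
    · exact absurd (h'.2.symm.trans h.2) d4
    · rw [h.1, h'.1]
    · exact absurd (h'.2.symm.trans h.2) d6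
    · exact absurd (h.2.symm.trans h'.2) d5
    · exact absurd (h.2.symm.trans h'.2) d6
    · rw [h.1, h'.1]
  · intro i hi v hv γ h h'
    have e1 : nx n i ≠ pv n i ∧ nx n i ≠ i ∧ nx n (nx n (nx n i)) ≠ nx n i ∧
        nx n (nx n i) ≠ nx n i ∧ pv n i ≠ nx n (nx n i) ∧ pv n i ≠ i ∧
        pv n i ≠ nx n (nx n (nx n i)) ∧ nx n (nx n i) ≠ i ∧
        nx n (nx n (nx n i)) ≠ nx n (nx n i) := by
      unfold nx pv
      refine ⟨?_, ?_, ?_, ?_, ?_, ?_, ?_, ?_, ?_⟩ <;> split_ifs <;> omega
    have e2 : uu m (nx n (nx n i)) ≠ uu m i ∧ uu m (nx n (nx n i)) ≠ uu m (nx n i) := by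
      unfold nx uu
      refine ⟨?_, ?_⟩ <;> split_ifs <;> omega
    rcases r0_cases h with h | h | h <;> rcases r0_cases h' with h' | h' | h' <;>
      (try simp only [pv_nx] at h') <;> omega
  · intro i hi v hv γ h
    exact h

lemma fill_row {m n N : ℕ} (hm : 7 ≤ m) (hn : 5 ≤ n) (hnm : n ≤ m + 1) (hN : N < n)
    (R : ℕ → ℕ → Option ℕ) (hR : Good m n R) (hRN : R N = r0 m n N) :
    ∃ R' : ℕ → ℕ → Option ℕ, Good m n R' ∧ (∀ i, i ≠ N → R' i = R i) ∧
      ∀ v < m, ∃ γ, R' N v = some γ := by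
  classical
  obtain ⟨g0, g1, g3, g4⟩ := hR
  obtain ⟨u1, u2, u3, u4, u5, u6, d1, d2, d3, d4, d5, d6⟩ := distinct_facts hm hn hnm hN
  have l1 := nx_lt hN
  have l2 := pv_lt hN
  have l3 := nx_lt (nx_lt hN)
  let A : Finset ℕ := Finset.range m \ {uu m (nx n N), uu m (pv n N), uu m N}
  let B : Finset ℕ := Finset.range (m + 1) \ {N, nx n N, pv n N, nx n (nx n N)}
  have hA : A.card = m - 3 := by
    have h1 : ({uu m (nx n N), uu m (pv n N), uu m N} : Finset ℕ) ⊆ Finset.range m := by
      intro x hx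
      simp only [Finset.mem_insert, Finset.mem_singleton] at hx
      rw [Finset.mem_range]
      rcases hx with rfl | rfl | rfl <;> assumption
    have h2 : ({uu m (nx n N), uu m (pv n N), uu m N} : Finset ℕ).card = 3 := by
      rw [Finset.card_eq_three]
      exact ⟨_, _, _, u4, u5, u6, rfl⟩
    rw [Finset.card_sdiff_of_subset h1, h2, Finset.card_range]
  have hB : B.card = m - 3 := by
    have h1 : ({N, nx n N, pv n N, nx n (nx n N)} : Finset ℕ) ⊆ Finset.range (m + 1) := by
      intro x hx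
      simp only [Finset.mem_insert, Finset.mem_singleton] at hx
      rw [Finset.mem_range]
      rcases hx with rfl | rfl | rfl | rfl <;> omega
    have h2 : ({N, nx n N, pv n N, nx n (nx n N)} : Finset ℕ).card = 4 := by
      rw [Finset.card_insert_of_notMem, Finset.card_insert_of_notMem,
        Finset.card_insert_of_notMem, Finset.card_singleton]
      · simp only [Finset.mem_singleton]; exact fun h => d6 h.symm
      · simp only [Finset.mem_insert, Finset.mem_singleton, not_or]
        exact ⟨d4, fun h => d5 h.symm⟩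
      · simp only [Finset.mem_insert, Finset.mem_singleton, not_or]
        exact ⟨fun h => d1 h.symm, fun h => d2 h.symm, fun h => d3 h.symm⟩
    rw [Finset.card_sdiff_of_subset h1, h2, Finset.card_range]
    omega
  have memA : ∀ v, v ∈ A ↔ v < m ∧ r0 m n N v = none := by
    intro v
    simp only [A, Finset.mem_sdiff, Finset.mem_range, Finset.mem_insert, Finset.mem_singleton,
      not_or, r0]
    constructor
    · rintro ⟨h1, h2, h3, h4⟩
      exact ⟨h1, by rw [if_neg h2, if_neg h3, if_neg h4]⟩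
    · rintro ⟨h1, h2⟩
      refine ⟨h1, ?_, ?_, ?_⟩
      · intro h; rw [if_pos h] at h2; simp at h2
      · intro h; split_ifs at h2
      · intro h; split_ifs at h2
  have memB : ∀ γ, γ ∈ B → γ < m + 1 ∧ γ ≠ N ∧ ∀ v, r0 m n N v ≠ some γ := by
    intro γ hγ
    simp only [B, Finset.mem_sdiff, Finset.mem_range, Finset.mem_insert, Finset.mem_singleton,
      not_or] at hγ
    refine ⟨hγ.1, hγ.2.1, fun v hv => ?_⟩
    rcases r0_cases hv with h | h | h
    · exact hγ.2.2.1 h.2
    · exact hγ.2.2.2.1 h.2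
    · exact hγ.2.2.2.2 h.2
  obtain ⟨f, hf1, hf2, hf3⟩ := matching A B (by rw [hA, hB]) (by rw [hA]; omega)
    (R (pv n N)) (R (nx n N))
    (fun v hv w hw γ h h' => g1 (pv n N) l2 v ((memA v).mp hv).1 w ((memA w).mp hw).1 γ h h')
    (fun v hv w hw γ h h' => g1 (nx n N) l1 v ((memA v).mp hv).1 w ((memA w).mp hw).1 γ h h')
  refine ⟨fun i v => if i = N then (if v ∈ A then some (f v) else r0 m n N v) else R i v,
    ⟨?_, ?_, ?_, ?_⟩, ?_, ?_⟩
  · intro i hi v hv γ h
    simp only at h
    split_ifs at h with h1 h2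
    · rw [Option.some.injEq] at h
      rw [← h, h1]
      exact ⟨(memB _ (hf1 v h2)).1, (memB _ (hf1 v h2)).2.1⟩
    · rw [← hRN] at h
      rw [h1]
      exact g0 N hN v hv γ h
    · exact g0 i hi v hv γ h
  · intro i hi v hv w hw γ h h'
    simp only at h h'
    split_ifs at h with h1 h2
    · rw [if_pos h1] at h'
      rw [Option.some.injEq] at h
      split_ifs at h' with h3
      · rw [Option.some.injEq] at h'
        exact hf2 v h2 w h3 (h.trans h'.symm)
      · exact absurd h' ((memB γ (by rw [← h]; exact hf1 v h2)).2.2 w)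
    · rw [if_pos h1] at h'
      split_ifs at h' with h3
      · rw [Option.some.injEq] at h'
        exact absurd h ((memB γ (by rw [← h']; exact hf1 w h3)).2.2 v)
      · rw [← hRN] at h h'
        exact g1 N hN v hv w hw γ h h'
    · rw [if_neg h1] at h'
      exact g1 i hi v hv w hw γ h h'
  · intro i hi v hv γ h
    simp only at h ⊢
    by_cases h1 : i = N
    · subst h1
      rw [if_neg d1]
      rw [if_pos rfl] at h
      split_ifs at h with h2
      · rw [Option.some.injEq] at h
        rw [← h]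
        exact (hf3 v h2).2
      · rw [← hRN] at h
        exact g3 i hi v hv γ h
    · rw [if_neg h1] at h
      by_cases h2 : nx n i = N
      · rw [if_pos h2]
        have h3 : i = pv n N := by rw [← h2, pv_nx]
        split_ifs with h4
        · intro h5
          rw [Option.some.injEq] at h5
          rw [h3] at h
          apply (hf3 v h4).1
          rw [h, h5]
        · rw [← hRN, ← h2]
          exact g3 i hi v hv γ h
      · rw [if_neg h2]
        exact g3 i hi v hv γ h
  · intro i hi v hv γ h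
    simp only
    by_cases h1 : i = N
    · subst h1
      rw [if_pos rfl]
      have h2 : v ∉ A := by
        intro hvA
        rw [((memA v).mp hvA).2] at h
        simp at h
      rw [if_neg h2]
      exact h
    · rw [if_neg h1]
      exact g4 i hi v hv γ h
  · intro i hi
    funext v
    simp only [if_neg hi]
  · intro v hv
    simp only [if_true]
    by_cases h2 : v ∈ A
    · exact ⟨f v, by rw [if_pos h2]⟩
    · rw [if_neg h2]
      have := (memA v).not.mp h2
      rcases hr : r0 m n N v with _ | γ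
      · exact absurd ⟨hv, hr⟩ this
      · exact ⟨γ, rfl⟩

lemma fill_all {m n : ℕ} (hm : 7 ≤ m) (hn : 5 ≤ n) (hnm : n ≤ m + 1) :
    ∃ R : ℕ → ℕ → Option ℕ, Good m n R ∧ ∀ i < n, ∀ v < m, ∃ γ, R i v = some γ := by
  have key : ∀ N ≤ n, ∃ R : ℕ → ℕ → Option ℕ, Good m n R ∧
      (∀ i < N, ∀ v < m, ∃ γ, R i v = some γ) ∧ ∀ i, N ≤ i → R i = r0 m n i := by
    intro N
    induction N with
    | zero =>
      intro _
      exact ⟨r0 m n, good_r0 hm hn hnm, fun i hi => absurd hi (Nat.not_lt_zero _),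
        fun i _ => rfl⟩
    | succ N ih =>
      intro hN
      obtain ⟨R, hR, hfull, hrest⟩ := ih (by omega)
      obtain ⟨R', hR', heq, hfull'⟩ := fill_row hm hn hnm (by omega) R hR (hrest N le_rfl)
      refine ⟨R', hR', ?_, ?_⟩
      · intro i hi v hv
        by_cases h : i = N
        · rw [h]; exact hfull' v hv
        · rw [heq i h]; exact hfull i (by omega) v hv
      · intro i hi
        rw [heq i (by omega)]
        exact hrest i (by omega)
  obtain ⟨R, hR, hfull, -⟩ := key n le_rfl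
  exact ⟨R, hR, hfull⟩

lemma missing_of_injective {m : ℕ} (f : Fin m → Fin (m + 1)) (hinj : Function.Injective f)
    (α : Fin (m + 1)) (hα : ∀ v, f v ≠ α) (γ : Fin (m + 1)) (hγ : γ ≠ α) : ∃ v, f v = γ := by
  classical
  by_contra hno
  push Not at hno
  have h1 : (Finset.univ.image f).card = m := by
    rw [Finset.card_image_of_injective _ hinj]
    simp
  have h2 : Finset.univ.image f ⊆ (Finset.univ \ {α, γ}) := by
    intro x hx
    obtain ⟨v, -, rfl⟩ := Finset.mem_image.mp hx
    simp only [Finset.mem_sdiff, Finset.mem_univ, true_and, Finset.mem_insert,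
      Finset.mem_singleton, not_or]
    exact ⟨hα v, hno v⟩
  have h3 := Finset.card_le_card h2
  have h4 : ({α, γ} : Finset (Fin (m + 1))).card = 2 := Finset.card_pair (Ne.symm hγ)
  rw [Finset.card_sdiff_of_subset (Finset.subset_univ _), h1, h4] at h3
  simp only [Finset.card_univ, Fintype.card_fin] at h3
  have : 2 ≤ m + 1 := by
    have := Finset.card_le_univ ({α, γ} : Finset (Fin (m + 1)))
    rw [h4] at this
    simpa using this
  omega

lemma upperA {m n : ℕ} (hm : 7 ≤ m) (hn : 5 ≤ n) (hnm : n ≤ m + 1) {H : SimpleGraph (Fin n)}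
    (hH : H.Connected)
    (hadj : ∀ i j : Fin n, H.Adj i j → j.val = nx n i.val ∨ i.val = nx n j.val) :
    ∃ c : Fin m × Fin n → Fin (m + 1), IsLocating ((⊤ : SimpleGraph (Fin m)) □ H) c := by
  obtain ⟨R, ⟨g0, g1, g3, g4⟩, hfull⟩ := fill_all hm hn hnm
  have hget : ∀ i < n, ∀ v < m, R i v = some ((R i v).getD 0) := by
    intro i hi v hv
    obtain ⟨γ, hγ⟩ := hfull i hi v hv
    rw [hγ]; rfl
  let c : Fin m × Fin n → Fin (m + 1) := fun x =>
    ⟨(R x.2.val x.1.val).getD 0, (g0 _ x.2.2 _ x.1.2 _ (hget _ x.2.2 _ x.1.2)).1⟩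
  have hcR : ∀ (v : Fin m) (i : Fin n), R i.val v.val = some (c (v, i)).val :=
    fun v i => hget _ i.2 _ v.2
  -- colour `i` as an element of `Fin (m+1)`
  let col : Fin n → Fin (m + 1) := fun i => ⟨i.val, by have := i.2; omega⟩
  have hinj : ∀ i : Fin n, ∀ v w : Fin m, c (v, i) = c (w, i) → v = w := by
    intro i v w h
    apply Fin.ext
    apply g1 i.val i.2 v.val v.2 w.val w.2 (c (v, i)).val (hcR v i)
    rw [hcR w i, h]
  have hmiss : ∀ (i : Fin n) (v : Fin m), c (v, i) ≠ col i := by
    intro i v h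
    exact (g0 i.val i.2 v.val v.2 _ (hcR v i)).2 (congrArg Fin.val h)
  have hall : ∀ (i : Fin n) (γ : Fin (m + 1)), γ ≠ col i → ∃ v, c (v, i) = γ := by
    intro i γ hγ
    exact missing_of_injective (fun v => c (v, i)) (fun v w h => hinj i v w h) (col i)
      (hmiss i) γ hγ
  have hcolinj : ∀ i j : Fin n, col i = col j → i = j := by
    intro i j h
    apply Fin.ext
    have h1 := congrArg Fin.val h
    exact h1
  have hdiff : ∀ (v : Fin m) (i j : Fin n), j.val = nx n i.val → c (v, i) ≠ c (v, j) := by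
    intro v i j hij h
    apply g3 i.val i.2 v.val v.2 _ (hcR v i)
    rw [← hij, hcR v j, h]
  have huu : ∀ i : Fin n, uu m i.val < m := fun i => (distinct_facts hm hn hnm i.2).1
  let U : Fin n → Fin m := fun i => ⟨uu m i.val, huu i⟩
  have hU1 : ∀ i j : Fin n, H.Adj i j → c (U i, j) = col i := by
    intro i j hij
    apply Fin.ext
    have key : r0 m n j.val (uu m i.val) = some i.val := by
      rcases hadj i j hij with h | h
      · rw [h]
        unfold r0
        have e2 : uu m i.val ≠ uu m (nx n (nx n i.val)) := by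
          have := i.2
          unfold nx uu
          split_ifs <;> omega
        rw [pv_nx, if_neg e2, if_pos rfl]
      · rw [h]
        unfold r0
        rw [if_pos rfl]
    have h1 := g4 j.val j.2 (uu m i.val) (huu i) _ key
    have h2 := hcR (U i) j
    have h3 : some i.val = some (c (U i, j)).val := h1.symm.trans h2
    rw [Option.some.injEq] at h3
    exact h3.symm
  have hU2 : ∀ i : Fin n, (c (U i, i)).val = nx n (nx n i.val) := by
    intro i
    obtain ⟨u1, u2, u3, u4, u5, u6, d1, d2, d3, d4, d5, d6⟩ := distinct_facts hm hn hnm i.2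
    have key : r0 m n i.val (uu m i.val) = some (nx n (nx n i.val)) := by
      unfold r0
      rw [if_neg (Ne.symm u5), if_neg (Ne.symm u6), if_pos rfl]
    have h1 := g4 i.val i.2 (uu m i.val) (huu i) _ key
    have h2 := hcR (U i) i
    have h3 : some (nx n (nx n i.val)) = some (c (U i, i)).val := h1.symm.trans h2
    rw [Option.some.injEq] at h3
    exact h3.symm
  have hfar : ∀ (i j : Fin n) (v w : Fin m), i ≠ j → v ≠ U i →
      distToSet ((⊤ : SimpleGraph (Fin m)) □ H) (w, j) {x | c x = col i} <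
      distToSet ((⊤ : SimpleGraph (Fin m)) □ H) (v, i) {x | c x = col i} := by
    intro i j v w hij hv
    obtain ⟨z, hz⟩ := hall j (col i) (fun h => hij (hcolinj i j h))
    have h1 := d_le_one (v := w) hH hz
    have h2 : 2 ≤ distToSet ((⊤ : SimpleGraph (Fin m)) □ H) (v, i) {x | c x = col i} := by
      apply d_ge_two hH ⟨_, hz⟩ (hmiss i)
      intro l hl hcl
      exact hv (hinj l _ _ (hcl.trans (hU1 i l hl).symm))
    omega
  refine ⟨c, ?_, ?_, ?_⟩
  · rintro ⟨v, i⟩ ⟨w, j⟩ h heq
    rw [boxProd_adj] at h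
    simp only [top_adj] at h
    rcases h with ⟨h1, h2⟩ | ⟨h1, h2⟩
    · subst h2
      exact h1 (hinj i v w heq)
    · subst h2
      rcases hadj i j h1 with h | h
      · exact hdiff v i j h heq
      · exact hdiff v j i h heq.symm
  · intro γ
    by_cases h : γ = col ⟨0, by omega⟩
    · obtain ⟨v, hv⟩ := hall ⟨1, by omega⟩ γ (by
        rw [h]
        intro h'
        have := congrArg Fin.val h'
        simp [col] at this)
      exact ⟨_, hv⟩
    · obtain ⟨v, hv⟩ := hall ⟨0, by omega⟩ γ h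
      exact ⟨_, hv⟩
  · rintro ⟨v, i⟩ ⟨w, j⟩ hcode
    have hcol : c (w, j) = c (v, i) := by
      have h3 := hcode (c (v, i))
      rw [distToSet_self (show (v, i) ∈ {x | c x = c (v, i)} from rfl)] at h3
      by_contra hne
      have := distToSet_pos (conn_prod (by omega) hH) (v := (w, j)) (S := {x | c x = c (v, i)})
        ⟨(v, i), rfl⟩ hne
      omega
    by_cases hij : i = j
    · subst hij
      rw [hinj i w v hcol]
    · exfalso
      by_cases hv : v = U i
      · by_cases hw : w = U j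
        · rw [hv, hw] at hcol
          have h1 := congrArg Fin.val hcol
          rw [hU2, hU2] at h1
          have hi := i.2
          have hj := j.2
          apply hij
          apply Fin.ext
          unfold nx at h1
          split_ifs at h1 <;> omega
        · have h1 := hfar j i w v (fun h => hij h.symm) hw
          have h2 := hcode (col j)
          omega
      · have h1 := hfar i j v w hij hv
        have h2 := hcode (col i)
        omega

end UpperA

section Final

/-- The exact value of the locating chromatic number of `K_m □ H` for `H` a path or a cycle. -/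
lemma value {m n : ℕ} (hm : 7 ≤ m) (hn : 5 ≤ n) {H : SimpleGraph (Fin n)}
    (hH : H.Connected)
    (hadj : ∀ i j : Fin n, H.Adj i j → j.val = nx n i.val ∨ i.val = nx n j.val)
    (hU : ∃ c : Fin m × Fin n → Fin (m + 2), IsLocating ((⊤ : SimpleGraph (Fin m)) □ H) c) :
    locatingChromaticNumber ((⊤ : SimpleGraph (Fin m)) □ H) =
      if n ≤ m + 1 then m + 1 else m + 2 := by
  have hdeg : ∀ i : Fin n, ∃ s t, ∀ r, H.Adj i r → r = s ∨ r = t := by
    intro i
    refine ⟨⟨nx n i.val, nx_lt i.2⟩, ⟨pv n i.val, pv_lt i.2⟩, fun r hr => ?_⟩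
    rcases hadj i r hr with h | h
    · left; exact Fin.ext h
    · right
      apply Fin.ext
      simp only [h, pv_nx]
  split_ifs with h
  · apply le_antisymm
    · exact Nat.sInf_le (upperA hm hn h hH hadj)
    · apply le_csInf (s := {k : ℕ | ∃ c : Fin m × Fin n → Fin k,
        IsLocating ((⊤ : SimpleGraph (Fin m)) □ H) c}) ⟨_, hU⟩
      rintro k ⟨c, hc⟩
      exact lower_one (by omega) (by omega) hH hc
  · apply le_antisymm
    · exact Nat.sInf_le hU
    · apply le_csInf (s := {k : ℕ | ∃ c : Fin m × Fin n → Fin k,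
        IsLocating ((⊤ : SimpleGraph (Fin m)) □ H) c}) ⟨_, hU⟩
      rintro k ⟨c, hc⟩
      have h1 := lower_one (by omega) (by omega) hH hc
      rcases Nat.lt_or_ge k (m + 2) with h2 | h2
      · exfalso
        obtain rfl : k = m + 1 := by omega
        exact h (lower_two (by omega) (by omega) hH hdeg hc)
      · exact h2

lemma path_value {m n : ℕ} (hm : 7 ≤ m) (hn : 5 ≤ n) :
    locatingChromaticNumber ((⊤ : SimpleGraph (Fin m)) □ pathGraph n) =
      if n ≤ m + 1 then m + 1 else m + 2 := by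
  apply value hm hn
  · obtain ⟨k, rfl⟩ : ∃ k, n = k + 1 := ⟨n - 1, by omega⟩
    exact pathGraph_connected k
  · intro i j h
    rw [pathGraph_adj] at h
    have hi := i.2
    have hj := j.2
    unfold nx
    rcases h with h | h
    · left; split_ifs <;> omega
    · right; split_ifs <;> omega
  · exact path_upper (by omega) (by omega)

lemma cycle_value {m n : ℕ} (hm : 7 ≤ m) (hn : 5 ≤ n) :
    locatingChromaticNumber ((⊤ : SimpleGraph (Fin m)) □ cycleGraph n) =
      if n ≤ m + 1 then m + 1 else m + 2 := by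
  apply value hm hn
  · obtain ⟨k, rfl⟩ : ∃ k, n = k + 1 := ⟨n - 1, by omega⟩
    exact cycleGraph_connected
  · intro i j h
    rw [cycle_adj_iff (by omega)] at h
    have hi := i.2
    have hj := j.2
    unfold nx
    rcases h with h | h | h | h
    · left; split_ifs <;> omega
    · right; split_ifs <;> omega
    · right; split_ifs <;> omega
    · left; split_ifs <;> omega
  · exact cycle_upper (by omega) (by omega)

end Final

/-- There is `N` (in fact `N = 7` works) such that for all `m, n ≥ N` the graphs `K_m □ C_n` and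
`K_m □ P_n` have the same locating chromatic number. -/
theorem result : ∃ N : ℕ, ∀ m n : ℕ, N ≤ m → N ≤ n →
    locatingChromaticNumber (completeGraph (Fin m) □ cycleGraph n) =
      locatingChromaticNumber (completeGraph (Fin m) □ pathGraph n) := by
  refine ⟨7, fun m n hm hn => ?_⟩
  rw [show completeGraph (Fin m) = (⊤ : SimpleGraph (Fin m)) from rfl,
    cycle_value hm (by omega), path_value hm (by omega)]

end Pool.Agent.Results.MP_6ba634_co.LocatingEq
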